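import Pool.Agent.W_MP_be1d92_co.Construction

/-!
# Retractions onto good subsets: the number of steps is unbounded
-/

namespace Pool.Agent.Results.MP_be1d92_co.UnboundedRetractions

open Pool.Agent.W_MP_be1d92_co

/-- For every `n` there is a chain-complete ordered set with no infinite antichains for which
exactly `n` successive retractions onto good subsets are needed to reach a finite set; this
holds both for good subsets as in the problem file and for good subsets in the sense of
Li and Milner. -/
theorem result : ∀ n : ℕ, ∃ (P : Type) (_ : PartialOrder P),
    ChainComplete P ∧ NoInfiniteAntichain P ∧ gamma IsGood P = n ∧ gamma IsGoodLM P = n := by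
  intro n
  refine ⟨X (2 * n), inferInstance, X.chainComplete _, X.noInfiniteAntichain _, ?_, ?_⟩
  · exact gamma_eq_of_unique IsGood _ n (X.stage (2 * n)) (X.stage_zero _)
      (fun i _ => X.stage_anti _ i) (fun i hi => X.stage_infinite hi) (X.stage_finite n)
      (fun i hi Q => (X.stage_unique hi Q).1)
  · exact gamma_eq_of_unique IsGoodLM _ n (X.stage (2 * n)) (X.stage_zero _)
      (fun i _ => X.stage_anti _ i) (fun i hi => X.stage_infinite hi) (X.stage_finite n)
      (fun i hi Q => (X.stage_unique hi Q).2)

end Pool.Agent.Results.MP_be1d92_co.UnboundedRetractions
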